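import Pool.Agent.X39.Near.MasterI
import Pool.Agent.Results.MP_12eca1_ag.ArbitraryBasePoints

/-!
# The period conjecture over arbitrary fields: ALL points of a family close to any point outside a set of dimension zero

Let `E_x`, `P_1, …, P_r`, `t_1, …, t_s`, `S_1, …, S_q` be a family over `V` as in `ArbitraryBasePoints` (elliptic curves with
nonconstant `j` and algebraic invariants, algebraic sections independent modulo torsion, a tower of integrals, logarithms of
`σ(∑ N_i u_i)`): the periods of motives `M_x`, and let `x = h(z)`, `h` an arbitrary nonconstant analytic function with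
values in `V` on a connected open set `U` (for instance an exponential, an elliptic function or the Gamma function).
One can choose all but one of the `4 + 2 r + s + q` functions `h(z)`, periods at `h(z)`, such that outside ONE set of
complex numbers `y` of Hausdorff dimension `0`, for all number fields `F ⊂ ℂ`, all `ω > 0`, `d` and `A` there are `B` and
`T₁` such that for all `T ≥ T₁` and ALL `z ∈ F` of height at most `T` with `|z - y| ≤ T ^ (-ω)` the chosen numbers satisfy
no relation of degree at most `d` with coefficients which are polynomials of degree at most `d` in the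
`a_k(z) / w(z)` and in given complex numbers `ξ_i` (for instance `π` and generators and periods of any fixed motive),
with coefficients in `F` of height at most `T ^ A`, not even up to `T ^ (-B)`. This is the number predicted by the
generalised period conjecture of André over the (in general transcendental) field of definition. In particular it holds at
the convergents of all irrational real numbers in `U` outside this set, from some point on.
-/

set_option autoImplicit false

open MeasureTheory NumberField
open Pool.Agent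
open Pool.Agent.Results.MP_12eca1_ag.ArbitraryBasePoints

namespace Pool.Agent.Results.MP_12eca1_ag.ApproximationsOfAllNumbers

open Pool.Agent.X39.Near (Size Dependent)

/-- the chosen functions: `h(z)` and periods at `h(z)` -/
noncomputable def chosen {r s q k : ℕ} (Λ : ℂ → PeriodPair) (u : Fin r → ℂ → ℂ) (t : Fin s → ℂ → ℂ)
    (S : Fin q → ℂ → ℂ) (h : ℂ → ℂ)
    (e : Fin k → Option (Fin 3 ⊕ (Fin r ⊕ (Fin r ⊕ (Fin s ⊕ Fin q))))) (i : Fin k) (z : ℂ) : ℂ :=
  value Λ u t S (h z) (e i)

/-- **Theorem.** For a family over `V` and a nonconstant analytic function `h` on `U` with values in `V` one can choose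
all but one of the `4 + 2 r + s + q` functions `h(z)`, periods at `h(z)`, such that for all polynomials `a_k`, `w`, `w`
without zeros on `U`, and all complex `ξ_1, …, ξ_g` there is a set `E` of complex numbers of Hausdorff dimension `0` such
that: (1) for all `x ∈ U` outside `E`, all number fields `F` with an embedding `ι` in `ℂ`, all `d`, `A` and `ω > 0` there
are `B`, `T₁` such that for all `T ≥ T₁` and all `z ∈ F`, quotients of integers with conjugates at most `T`, with
`|ι z - x| ≤ T ^ (-ω)`, the values of these functions at `z` are not dependent; (2) for all irrational real `x ∈ U`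
outside `E` and all `d`, `A` there is `B` such that the values at the convergents of `x` are not dependent over `ℚ`, at
the level of the denominator, from some point on. -/
theorem result {r s q : ℕ} (V : Set ℂ) (Λ : ℂ → PeriodPair) (u : Fin r → ℂ → ℂ) (t : Fin s → ℂ → ℂ)
    (N : Fin q → Fin r → ℤ) (S : Fin q → ℂ → ℂ) (hV : Family V Λ u t N S)
    (U : Set ℂ) (h : ℂ → ℂ) (hU : Map U V h) :
    ∃ e : Fin (3 + 2 * r + s + q) → Option (Fin 3 ⊕ (Fin r ⊕ (Fin r ⊕ (Fin s ⊕ Fin q)))), Function.Injective e ∧
      ∀ (m g : ℕ) (a : Fin m → Polynomial ℂ) (w : Polynomial ℂ), (∀ z ∈ U, w.eval z ≠ 0) → ∀ ξ : Fin g → ℂ,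
      ∃ E : Set ℂ, dimH E = 0 ∧
        (∀ x ∈ U, x ∉ E → ∀ (F : Type) [Field F] [NumberField F] (ι : F →+* ℂ)
          (d A : ℕ) (ω : ℝ), 0 < ω → ∃ B T₁ : ℝ, ∀ T : ℝ, T₁ ≤ T → ∀ z : F, Size F T z →
            ‖ι z - x‖ ≤ T ^ (-ω) → ¬ Dependent (chosen Λ u t S h e) a w ξ F ι d A B T z) ∧
        ∀ x : ℝ, Irrational x → (x : ℂ) ∈ U → (x : ℂ) ∉ E → ∀ d A : ℕ, ∃ (B : ℝ) (n₀ : ℕ), ∀ k : ℕ,
          n₀ ≤ k → ¬ Dependent (chosen Λ u t S h e) a w ξ ℚ (algebraMap ℚ ℂ) d A B (x.convergent k).den
            (x.convergent k) := by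
  classical
  have hF : Y776.Fam.FmT V Λ u t N S :=
    ⟨{ isOpen := hV.isOpen, conn := hV.isPreconnected, an₁ := hV.analytic₁, an₂ := hV.analytic₂
       ni := hV.nonconstant, ag2 := hV.algebraic₂, ag3 := hV.algebraic₃, ua := hV.point
       un := hV.point_ne, uw := hV.point_alg, ui := hV.point_ind, la := fun k => k.elim0
       le := fun k => k.elim0, li := fun _ _ _ => Subsingleton.elim _ _
       Sa := hV.sigma, Se := hV.sigma_exp, Ni := hV.sigma_ind },
      hV.tower, hV.tower_deriv, hV.tower_ind⟩
  have hper : ∀ x i, Y776.Fam.yfam Λ u t S i x = periods Λ u t S x i := by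
    intro z i
    rcases i with a | i | i | k | k
    · fin_cases a
      · rfl
      · rfl
      · exact Pool.Agent.TH813.Ell.eta_half (Λ z).ω₁_mem_lattice (Pool.Agent.TH813.Ell.half₁ (Λ z))
    all_goals rfl
  let y : Option (Fin 3 ⊕ (Fin r ⊕ (Fin r ⊕ (Fin s ⊕ Fin q)))) → ℂ → ℂ := fun o x =>
    o.elim x (fun i => Y776.Fam.yfam Λ u t S i x)
  have hy0 : ∀ o, AnalyticOnNhd ℂ (y o) V := by
    rintro (_ | i) z hz
    · exact analyticAt_id
    · exact Y776.Fam.yfam_anT hF i z hz
  have hyi : Y776.Cv.FInd U (fun o z => y o (h z)) := by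
    obtain ⟨w, hw⟩ := hU.nonempty
    have h1 : Y776.Cv.FInd V y := by
      intro P hP
      refine Y776.Fam.fam_locIndT hF (hU.mapsTo w hw) P ?_
      filter_upwards [hV.isOpen.mem_nhds (hU.mapsTo w hw)] with z hz
      exact hP z hz
    exact Y776.Cv.FInd.comp hV.isPreconnected hy0 h1 hU.isOpen hU.isPreconnected
      hU.analytic hU.mapsTo hU.nonempty hU.nonconstant
  have hya : ∀ o, AnalyticOnNhd ℂ (fun z => y o (h z)) U := fun o z hz =>
    AnalyticAt.fun_comp (g := y o) (f := h) (hy0 o _ (hU.mapsTo z hz)) (hU.analytic z hz)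
  obtain ⟨e, he, hL⟩ : ∃ e : Fin (3 + 2 * r + s + q) →
      Option (Fin 3 ⊕ (Fin r ⊕ (Fin r ⊕ (Fin s ⊕ Fin q)))), Function.Injective e ∧
      ∀ t' ∈ U, Y124.LocInd (fun k z => y (e k) (h z)) t' :=
    Y776.Cv.func_sub hU.isOpen hU.isPreconnected hU.nonempty hya hyi (by
      simp only [Fintype.card_option, Fintype.card_sum, Fintype.card_fin]
      omega)
  have hv : chosen Λ u t S h e = fun k z => y (e k) (h z) := by
    funext k z
    have h1 : ∀ x o, value Λ u t S x o = y o x := by
      rintro x (_ | i)
      · rfl
      · exact (hper x i).symm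
    exact h1 _ _
  refine ⟨e, he, fun m g a w hw ξ => ?_⟩
  rw [hv]
  exact Pool.Agent.X39.Near.master U hU.isOpen _ (fun k z hz => hya (e k) z hz) hL a w hw ξ

end Pool.Agent.Results.MP_12eca1_ag.ApproximationsOfAllNumbers
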