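import Pool.Agent.X120.GS.Tor
import Pool.Agent.Y123.ST.Out

/-!
# The period conjecture relative to arbitrary fields, for fibres over `b^(-n)` near a degenerate fibre

Let `X_i`, `1 ≤ i ≤ k`, be families of varieties (or of pairs) over punctured neighbourhoods of `0` in the line, with period
matrices `W_i(x) = Λ_i(-log x) P_i(x)` (rows: Betti, columns: de Rham), where the entries of `Λ_i` are polynomials of degree `≤ e'` with arbitrary
complex coefficients and the entries of `P_i(x)` are polynomials of degree `≤ e` with arbitrary complex coefficients in G-functions `h_{i,l}(x)` over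
`ℚ` (with the conditions of Siegel and Galochkin, regular singular with rational exponents at `∞`). If the local monodromy at `0` is `exp(2πi N)`
the Gauss-Manin system over `ℚ(x)` has a fundamental matrix `exp(N log x) P(x)` with `P` over `ℚ⟦x⟧`, and the period matrix is `Ω exp(N log x) P(x)` with a complex
matrix `Ω`; so the fibre over `0` may be degenerate, `Λ(u) = Ω exp(-u N)`. Let `Gal(P_i)` be the group of the matrices `g` such that `P_i` and `g P_i` satisfy the same
polynomial relations over `ℂ(x)`. (If the Zariski closure `G` of the monodromy group is connected and perfect, for example symplectic, then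
`Gal(P)` contains `G`: the differential Galois group over `ℂ(x, log x)` is `G` as well, so `G` preserves the relations of
`P = exp(-N log x) (exp(N log x) P)` over `ℂ(x, log x)`, and one can put `log x = 0` as `log x` is transcendental over the power series.) Let `b_i ≥ 2` be
integers and let `W_i` be the period matrices of the fibres over `b_i^(-t_i)`.

**Theorem.** Let `D`, `d`, `m` be natural numbers. There is a `C` which depends only on `D`, `d`, `m`, the `h_i`, the `b_i`, `k`, the ranks and the degrees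
`e`, `e'`, such that **for all** constants `ξ ∈ ℂ^m` and all but `C T^(k-1) log T` of the tuples `(t_1, …, t_k)` in `[1, T]^k` (all but `C log T` of the first `T` fibres
if `k = 1`) the following holds for all number fields `K` of degree at most `D` at once and all polynomials `F` over `K` of degree at most `d`.

1. If `F(W, ξ) = 0` then `F(Λ g P, ξ) = 0` for all `g ∈ ∏_i U_i`, where `U_i` is the group generated by the unipotent one-parameter groups in `Gal(P_i)`. By a
   theorem of Deligne this is the connected component of `Gal(P_i)` for smooth projective families.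
2. Let the `Q_i` be forms such that `P_i Q_i P_i^t` is nondegenerate alternating, or nondegenerate symmetric of rank `≠ 2`, or zero, and let `Gal(P_i)` contain the
   matrices of determinant `1` which respect this form (big monodromy). If `F(W, ξ) = 0` then `F(Y, ξ) = 0` for all `Y = (Y_i)` with
   `Y_i Q_i Y_i^t = W_i Q_i W_i^t` and `det Y_i = det W_i`.

The problem is about motives over arbitrary fields `k ⊂ ℂ`. Let `M_0` be any motive over any field `k = ℚ(ξ_1, …, ξ_l)`, with periods `ξ_(l+1), …, ξ_m`, for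
example the `1`-motive with `2πi`, the `α_j` and the logarithms `log α_j`, for which the conjecture is that of Schanuel. For the motive
`M = M_0 ⊕ ⨁_i H^(j_i)(X_i)` over `k` the conjecture is `trdeg ℚ(ξ, W) ≥ dim G_mot(M)`. The motivic Galois group of `M` is, for Hodge generic fibres with big monodromy, an
extension of that of `M_0 ⊕ ℚ(-1)` by the product of the groups in 2, so if the conjecture holds for `M_0` then for `M` it is the statement that `W` is a generic
point over `ℚ(ξ)` of the variety of all `Y` in 2. The theorem is this statement for relations of degree at most `d` in `W` and `ξ` over all number fields of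
degree at most `D`, **uniformly in `ξ`**, that is, for all fields `k`, all embeddings `k → ℂ` and all `M_0`. There are also `M(T) → ∞` and `ε(T) → 0` such
that for all but `ε(T) T^k` tuples in `[1, T]^k` this is true for degrees, numbers of constants and number fields of degree up to `M(T)`.

Earlier results of this type (also MP_12eca1_ag.AlgebraicFibres, MP_12eca1_ag.ArbitraryBasePoints) are about points ordered by the height with at
least `H^(o(1))` exceptions up to height `H`; as there are only `O(log H)` numbers `b^(-t)` of height at most `H` they say nothing here. The theorem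
in MP_5591bc_ag.GeometricSequencesWithConstants is for a good fibre over `0` and for one number field at a time.

Proof. The relation `F(Λ(t log b) P(b^(-t)), ξ) = 0` is a relation for `P(b^(-t))` with coefficients in the `ℚ`-vector space which is
spanned by products of the coefficients of `Λ` (times powers of `log b`) and the `ξ_j`, of dimension bounded independently of `t`. By the counting theorem on geometric sequences
(`Pool.Agent.X120.GS`) it is a specialisation of a functional relation, so it is stable under `Gal(P)`. (All fields) For `F` over `K` consider the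
relations over `ℚ` of degree `≤ d D^D` on a curve in the group: one conjugate of `F` over `ℚ` vanishes on the curve, and the Galois group permutes
these (`Pool.Agent.Y123.GN`). The classical groups are generated by their unipotent elements.
-/

set_option autoImplicit false

open PowerSeries Filter
open scoped Matrix

namespace Pool.Agent.Results.MP_12eca1_ag.DegenerateFibres

/-- an integer polynomial as a power series with rational coefficients -/
noncomputable def toQ (P : Polynomial ℤ) : PowerSeries ℚ := ((P.map (Int.castRingHom ℚ) : Polynomial ℚ) : PowerSeries ℚ)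

/-- the power series `P(u^e)` -/
noncomputable def atPow (e : ℕ) (P : Polynomial ℤ) : PowerSeries ℂ :=
  ((Polynomial.expand ℂ e (P.map (Int.castRingHom ℂ)) : Polynomial ℂ) : PowerSeries ℂ)

/-- the matrices `G_s` over `ℤ[x]` with `T^s y^(s) = G_s y` for all solutions `y` of `T y' = A y` -/
noncomputable def iter {r : ℕ} (T : Polynomial ℤ) (A : Fin r → Fin r → Polynomial ℤ) : ℕ → Fin r → Fin r → Polynomial ℤ
  | 0 => fun i j => if i = j then 1 else 0
  | s + 1 => fun i j => T * Polynomial.derivative (iter T A s i j) + ∑ l, iter T A s i l * A l j -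
      (s : Polynomial ℤ) * (Polynomial.derivative T * iter T A s i j)

/-- The system `T y' = A y` has a fundamental matrix of solutions of the form `u^(-M) ∑_n Φ_n(u) (log u)^n` with
`u^e = x` and convergent power series `Φ_n`: the point `0` is regular or a regular singularity with rational
exponents. -/
def QuasiUnipotent {r : ℕ} (T : Polynomial ℤ) (A : Fin r → Fin r → Polynomial ℤ) : Prop :=
  ∃ (e M : ℕ) (K : ℝ) (Φ : Matrix (Fin r) (Fin r) (Polynomial (PowerSeries ℂ))), 1 ≤ e ∧ Φ.det ≠ 0 ∧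
    (∀ i j n m, ‖coeff m ((Φ i j).coeff n)‖ ≤ K ^ (m + 1)) ∧
    ∀ i j n, atPow e T * (X * PowerSeries.derivative ℂ ((Φ i j).coeff n) +
        ((n : PowerSeries ℂ) + 1) * (Φ i j).coeff (n + 1) - (M : PowerSeries ℂ) * (Φ i j).coeff n) =
      (e : PowerSeries ℂ) * X ^ e * ∑ l, atPow e (A i l) * (Φ l j).coeff n

/-- `h_1, ..., h_r` are G-functions with rational coefficients which solve the differential system `T y' = A y`, with
the conditions of Siegel and Galochkin, and `∞` is a regular point or a regular singularity with rational exponents of the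
system: for `z = 1 / x` the system is `z² T^(z) dy/dz = - A^(z) y` where `T^(z) = z^d T(1/z)` and `A^(z) = z^d A(1/z)` are
the reflected polynomials. -/
structure GFamily {r : ℕ} (T : Polynomial ℤ) (A : Fin r → Fin r → Polynomial ℤ) (h : Fin r → PowerSeries ℚ) : Prop where
  /-- the denominator is not zero -/
  T_ne : T ≠ 0
  /-- the differential equations -/
  ode : ∀ i, toQ T * PowerSeries.derivative ℚ (h i) = ∑ j, toQ (A i j) * h j
  /-- the coefficients have geometric growth -/
  size : ∃ C : ℝ, ∀ i m, |((coeff m (h i) : ℚ) : ℝ)| ≤ C ^ (m + 1)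
  /-- the common denominators of the coefficients have geometric growth -/
  den : ∃ C : ℝ, ∀ m : ℕ, ∃ d : ℕ, 0 < d ∧ (d : ℝ) ≤ C ^ (m + 1) ∧ ∀ i, ∀ j ≤ m, ∃ a : ℤ, (d : ℚ) * coeff j (h i) = a
  /-- Galochkin's condition: the common denominators of the matrices `G_s / s!` have geometric growth -/
  galochkin : ∃ C : ℝ, ∀ m : ℕ, ∃ d : ℕ, 0 < d ∧ (d : ℝ) ≤ C ^ (m + 1) ∧ ∀ s ≤ m, ∀ i j,
    ∃ H : Polynomial ℤ, (d : Polynomial ℤ) * iter T A s i j = (s.factorial : Polynomial ℤ) * H
  /-- the local exponents at `∞` are rational and the singularity is regular -/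
  regular_infty : ∃ d : ℕ, T.natDegree ≤ d ∧ (∀ i j, (A i j).natDegree ≤ d) ∧
    QuasiUnipotent (Polynomial.X ^ 2 * T.reflect d) (fun i j => - (A i j).reflect d)

theorem iter_eq {r : ℕ} (T : Polynomial ℤ) (A : Fin r → Fin r → Polynomial ℤ) (s : ℕ) :
    iter T A s = Pool.Agent.Y120.GH.itm T A s := by
  induction s with
  | zero => rfl
  | succ s ih =>
    funext i j
    rw [iter, Pool.Agent.Y120.GH.itm, ih]

theorem qu_eq {r : ℕ} {T : Polynomial ℤ} {A : Fin r → Fin r → Polynomial ℤ} (h : QuasiUnipotent T A) :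
    Pool.Agent.Y120.GH.QU0 T A := by
  obtain ⟨e, M, K, Φ, he, hdet, hc, heq⟩ := h
  have he0 : e ≠ 0 := by omega
  refine ⟨e, he0, M, K, Φ, hc, fun i j n => ?_, hdet⟩
  have h1 := heq i j n
  simp only [atPow] at h1
  rw [Pool.Agent.Y120.GH.expand_poly he0]
  simp only [Pool.Agent.Y120.GH.expand_poly he0]
  exact h1

theorem fam {r : ℕ} {T : Polynomial ℤ} {A : Fin r → Fin r → Polynomial ℤ} {h : Fin r → PowerSeries ℚ}
    (hG : GFamily T A h) {b : ℕ} (hb : 2 ≤ b) (δ : ℕ) : Pool.Agent.X120.GS.FamG δ h b := by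
  obtain ⟨d, hTd, hAd, hqu⟩ := hG.regular_infty
  obtain ⟨B, a, M, h1, h2, h3⟩ := Pool.Agent.X120.GS.family_mainS hG.T_ne hG.ode hG.size hG.den (by
    obtain ⟨C, hC⟩ := hG.galochkin
    refine ⟨C, fun m => ?_⟩
    obtain ⟨d, h1, h2, h3⟩ := hC m
    refine ⟨d, h1, h2, fun s hs i' j' => ?_⟩
    rw [← iter_eq]
    exact h3 s hs i' j') hTd hAd (qu_eq hqu) δ
  exact ⟨hG.size, B, a, M, h1, h2, h3 b hb⟩

section family
variable {r n : ℕ}

/-- The period matrix at `x = 1 / s`: the entries are the polynomials `P a b` in the `h_l(1 / s)`. -/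
noncomputable def perMat (h : Fin r → PowerSeries ℚ) (P : Fin n → Fin n → MvPolynomial (Fin r) ℂ) (s : ℝ) :
    Matrix (Fin n) (Fin n) ℂ :=
  Matrix.of fun a b => MvPolynomial.aeval
    (fun l => ((∑' m : ℕ, ((coeff m (h l) : ℚ) : ℝ) * (1 / s) ^ m : ℝ) : ℂ)) (P a b)

/-- the polynomials in more variables -/
noncomputable def more (P : Fin n → Fin n → MvPolynomial (Fin r) ℂ) : Fin n → Fin n → MvPolynomial (Option (Fin r)) ℂ :=
  fun a b => MvPolynomial.rename some (P a b)

theorem perMat_eq (h : Fin r → PowerSeries ℚ) (P : Fin n → Fin n → MvPolynomial (Fin r) ℂ) (s : ℝ) :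
    perMat h P s = Pool.Agent.Y120.R.pM h (more P) s := by
  ext a b
  show MvPolynomial.aeval _ (P a b) = MvPolynomial.aeval _ (MvPolynomial.rename some (P a b))
  rw [MvPolynomial.aeval_rename]
  rfl

/-- the value at `x = 1 / s` and at the matrix `Z` of a polynomial in the entries of a matrix over `ℂ[x]` -/
noncomputable def relAt (R : MvPolynomial (Fin n × Fin n) (Polynomial ℂ)) (s : ℝ) (Z : Matrix (Fin n) (Fin n) ℂ) : ℂ :=
  MvPolynomial.eval₂ (Polynomial.evalRingHom (1 / (s : ℂ))) (fun v => Z v.1 v.2) R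

/-- `g P(x)` satisfies all polynomial relations over `ℂ[x]` which `P(x)` satisfies. -/
def Preserves (h : Fin r → PowerSeries ℚ) (P : Fin n → Fin n → MvPolynomial (Fin r) ℂ)
    (g : Matrix (Fin n) (Fin n) ℂ) : Prop :=
  ∀ R : MvPolynomial (Fin n × Fin n) (Polynomial ℂ), (∀ᶠ s : ℝ in Filter.atTop, relAt R s (perMat h P s) = 0) →
    ∀ᶠ s : ℝ in Filter.atTop, relAt R s (g * perMat h P s) = 0

theorem preserves_iff (h : Fin r → PowerSeries ℚ) (P : Fin n → Fin n → MvPolynomial (Fin r) ℂ)
    (g : Matrix (Fin n) (Fin n) ℂ) : Preserves h P g ↔ Pool.Agent.Y123.GN.Prs h (more P) g := by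
  unfold Preserves Pool.Agent.Y123.GN.Prs
  simp only [perMat_eq]
  exact Iff.rfl

/-- The group of the matrices `g` such that `g` and `g⁻¹` preserve the relations. If `P` is a fundamental matrix of a linear
differential system over `ℂ(x)` this is its differential Galois group. -/
noncomputable def Gal (h : Fin r → PowerSeries ℚ) (P : Fin n → Fin n → MvPolynomial (Fin r) ℂ) :
    Subgroup (Matrix.GeneralLinearGroup (Fin n) ℂ) where
  carrier := {g | Preserves h P (g : Matrix (Fin n) (Fin n) ℂ) ∧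
    Preserves h P ((g⁻¹ : Matrix.GeneralLinearGroup (Fin n) ℂ) : Matrix (Fin n) (Fin n) ℂ)}
  mul_mem' := fun hg hg' => by
    simp only [Set.mem_ofPred_eq, preserves_iff] at hg hg' ⊢
    exact (Pool.Agent.Y123.GN.Gs h (more P)).mul_mem' hg hg'
  one_mem' := by
    simp only [Set.mem_ofPred_eq, preserves_iff]
    exact (Pool.Agent.Y123.GN.Gs h (more P)).one_mem'
  inv_mem' := fun hg => by
    simp only [Set.mem_ofPred_eq, preserves_iff] at hg ⊢
    exact (Pool.Agent.Y123.GN.Gs h (more P)).inv_mem' hg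

theorem gal_eq (h : Fin r → PowerSeries ℚ) (P : Fin n → Fin n → MvPolynomial (Fin r) ℂ) :
    Gal h P = Pool.Agent.Y123.GN.Gs h (more P) := by
  ext g
  show Preserves h P _ ∧ Preserves h P _ ↔ Pool.Agent.Y123.GN.Prs h (more P) _ ∧ Pool.Agent.Y123.GN.Prs h (more P) _
  rw [preserves_iff, preserves_iff]

/-- the nilpotent matrices `N` with `exp (t N) ∈ H` for all `t` -/
def nilpotents (H : Subgroup (Matrix.GeneralLinearGroup (Fin n) ℂ)) : Set (Matrix (Fin n) (Fin n) ℂ) :=
  {N | IsNilpotent N ∧ ∀ t : ℂ, ∃ u ∈ H, (u : Matrix (Fin n) (Fin n) ℂ) = IsNilpotent.exp (t • N)}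

/-- the subgroup generated by all unipotent one-parameter groups in `H` -/
def unipotents (H : Subgroup (Matrix.GeneralLinearGroup (Fin n) ℂ)) : Subgroup (Matrix.GeneralLinearGroup (Fin n) ℂ) :=
  Subgroup.closure {u | ∃ N ∈ nilpotents H, ∃ t : ℂ, (u : Matrix (Fin n) (Fin n) ℂ) = IsNilpotent.exp (t • N)}

/-- the matrices of determinant `1` which respect the form `B`; the special linear group for `B = 0` -/
def special (B : Matrix (Fin n) (Fin n) ℂ) : Subgroup (Matrix.GeneralLinearGroup (Fin n) ℂ) where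
  carrier := {g | (g : Matrix (Fin n) (Fin n) ℂ).det = 1 ∧
    (g : Matrix (Fin n) (Fin n) ℂ) * B * (g : Matrix (Fin n) (Fin n) ℂ)ᵀ = B}
  mul_mem' := fun hg hg' => (Pool.Agent.Y123.GN.GB B).mul_mem' hg hg'
  one_mem' := (Pool.Agent.Y123.GN.GB B).one_mem'
  inv_mem' := fun hg => (Pool.Agent.Y123.GN.GB B).inv_mem' hg

/-- nondegenerate alternating forms -/
def Symplectic (B : Matrix (Fin n) (Fin n) ℂ) : Prop := IsUnit B ∧ Bᵀ = -B

/-- The form is zero, or nondegenerate and alternating, or nondegenerate and symmetric of rank different from `2`. -/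
def Classical (B : Matrix (Fin n) (Fin n) ℂ) : Prop := B = 0 ∨ Symplectic B ∨ (IsUnit B ∧ Bᵀ = B ∧ n ≠ 2)

end family

section
variable {k m : ℕ} {n : Fin k → ℕ} {ρ : Fin k → ℕ}

/-- the entries of the matrices `X_i` and the constants `ξ_j` -/
def entries (X : ∀ i, Matrix (Fin (n i)) (Fin (n i)) ℂ) (ξ : Fin m → ℂ) : (Σ i, Fin (n i) × Fin (n i)) ⊕ Fin m → ℂ :=
  Sum.elim (fun v => X v.1 v.2.1 v.2.2) ξ

/-- The conclusion for one tuple: `L i = Λ_i(t_i log b_i)`, `Z i = P_i(b_i^(-t_i))`, and `W i = L i * Z i` is the period matrix. -/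
def Good (D d : ℕ) (ξ : Fin m → ℂ) (h : ∀ i, Fin (ρ i) → PowerSeries ℚ)
    (P : ∀ i, Fin (n i) → Fin (n i) → MvPolynomial (Fin (ρ i)) ℂ) (L Z : ∀ i, Matrix (Fin (n i)) (Fin (n i)) ℂ) : Prop :=
  ∀ K : Subfield ℂ, FiniteDimensional ℚ K → Module.finrank ℚ K ≤ D →
  ∀ F : MvPolynomial ((Σ i, Fin (n i) × Fin (n i)) ⊕ Fin m) K, F.totalDegree ≤ d →
    MvPolynomial.aeval (entries (fun i => L i * Z i) ξ) F = 0 →
    -- 1: the relation is stable under the monodromy group
    (∀ g : ∀ i, Matrix.GeneralLinearGroup (Fin (n i)) ℂ, (∀ i, g i ∈ unipotents (Gal (h i) (P i))) →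
      MvPolynomial.aeval (entries (fun i => L i * ((g i : Matrix (Fin (n i)) (Fin (n i)) ℂ) * Z i)) ξ) F = 0) ∧
    -- 2: big monodromy
    (∀ Q : ∀ i, Matrix (Fin (n i)) (Fin (n i)) ℂ,
      (∀ i, IsUnit (L i) ∧ IsUnit (Z i) ∧ Classical (Z i * Q i * (Z i)ᵀ) ∧ special (Z i * Q i * (Z i)ᵀ) ≤ Gal (h i) (P i)) →
      ∀ Y : ∀ i, Matrix (Fin (n i)) (Fin (n i)) ℂ,
      (∀ i, Y i * Q i * (Y i)ᵀ = (L i * Z i) * Q i * (L i * Z i)ᵀ ∧
        (Symplectic (Z i * Q i * (Z i)ᵀ) ∨ (Y i).det = (L i * Z i).det)) →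
      MvPolynomial.aeval (entries Y ξ) F = 0)

theorem good_of {D d : ℕ} {ξ : Fin m → ℂ} {h : ∀ i, Fin (ρ i) → PowerSeries ℚ}
    {P : ∀ i, Fin (n i) → Fin (n i) → MvPolynomial (Fin (ρ i)) ℂ} {L : ∀ i, Matrix (Fin (n i)) (Fin (n i)) ℂ} {t : Fin k → ℕ}
    (hg : Pool.Agent.X120.GS.GoodL D d (Matrix.diagonal ξ) L h (Pool.Agent.X120.GS.soM P) t) :
    Good D d ξ h P L fun i => perMat (h i) (P i) (t i : ℝ) := by
  intro K hKf hKD F hF h0
  have h1 := hg K hKf hKD
  have hGal : ∀ i, Gal (h i) (P i) = Pool.Agent.Y123.GN.Gs (h i) (Pool.Agent.X120.GS.soM P i) := fun i => gal_eq _ _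
  have hZ : (fun i => perMat (h i) (P i) (t i : ℝ)) =
      fun i => Pool.Agent.Y120.R.pM (h i) (Pool.Agent.X120.GS.soM P i) (t i : ℝ) := funext fun i => perMat_eq _ _ _
  have hZi : ∀ i, perMat (h i) (P i) (t i : ℝ) = Pool.Agent.Y120.R.pM (h i) (Pool.Agent.X120.GS.soM P i) (t i : ℝ) :=
    fun i => perMat_eq _ _ _
  simp only [hZi] at h0 ⊢
  simp only [hGal]
  have hUg : ∀ {i : Fin k} {B : Matrix (Fin (n i)) (Fin (n i)) ℂ}, Classical B →
      special B ≤ Pool.Agent.Y123.GN.Gs (h i) (Pool.Agent.X120.GS.soM P i) →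
      Pool.Agent.Y123.GN.GB B ≤ Pool.Agent.Y123.GN.Ug (Pool.Agent.Y123.GN.Gs (h i) (Pool.Agent.X120.GS.soM P i)) := by
    intro i B hB hBG g hgB
    have h2 : (⁅Pool.Agent.Y123.GN.Ug (Pool.Agent.Y123.GN.Gs (h i) (Pool.Agent.X120.GS.soM P i)),
        Pool.Agent.Y123.GN.Ug (Pool.Agent.Y123.GN.Gs (h i) (Pool.Agent.X120.GS.soM P i))⁆ : Subgroup _) ≤
        Pool.Agent.Y123.GN.Ug (Pool.Agent.Y123.GN.Gs (h i) (Pool.Agent.X120.GS.soM P i)) := by
      rw [Subgroup.commutator_le]
      intro a ha b hb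
      exact Subgroup.mul_mem _ (Subgroup.mul_mem _ (Subgroup.mul_mem _ ha hb) (Subgroup.inv_mem _ ha)) (Subgroup.inv_mem _ hb)
    exact h2 (Pool.Agent.Y123.GN.mono_comm hBG (Pool.Agent.Y123.GN.cl_perf hB) hgB)
  refine ⟨?_, ?_⟩
  · intro g hgm
    exact Pool.Agent.X120.GS.rel_valsL (h1 g hgm) hF h0
  · intro Q hQ Y hY
    have h5 : ∀ g : ∀ i, (Matrix (Fin (n i)) (Fin (n i)) ℂ)ˣ,
        (∀ i, g i ∈ Pool.Agent.Y123.GN.GB (Pool.Agent.Y120.R.pM (h i) (Pool.Agent.X120.GS.soM P i) (t i : ℝ) * Q i *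
          (Pool.Agent.Y120.R.pM (h i) (Pool.Agent.X120.GS.soM P i) (t i : ℝ))ᵀ)) →
        Pool.Agent.Y123.GN.Rl K d
          (Pool.Agent.Y123.GN.EG (Matrix.diagonal ξ) fun i =>
            L i * Pool.Agent.Y120.R.pM (h i) (Pool.Agent.X120.GS.soM P i) (t i : ℝ))
          (Pool.Agent.Y123.GN.EG (Matrix.diagonal ξ) fun i => L i * ((g i : Matrix (Fin (n i)) (Fin (n i)) ℂ) *
            Pool.Agent.Y120.R.pM (h i) (Pool.Agent.X120.GS.soM P i) (t i : ℝ))) :=
      fun g hgB => h1 g fun i => hUg (hQ i).2.2.1 (hQ i).2.2.2 (hgB i)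
    have k1 : ∀ i, IsUnit (L i) := fun i => (hQ i).1
    have k2 : ∀ i, IsUnit (Pool.Agent.Y120.R.pM (h i) (Pool.Agent.X120.GS.soM P i) (t i : ℝ)) := fun i => (hQ i).2.1
    have k3 := fun i => (hY i).1
    have k4 := fun i => (hY i).2
    exact Pool.Agent.X120.GS.rel_formsL (ξ := ξ) (K := K) (d := d) (L := L)
      (Z := fun i => Pool.Agent.Y120.R.pM (h i) (Pool.Agent.X120.GS.soM P i) (t i : ℝ)) (Y := Y) (Q := Q) k1 k2 h5 k3 k4 hF h0

end

/-- **The theorem.** The period matrix of the `i`-th family at `x = 1 / s` is `Λ_i(log s) P_i(x)`; `b i ≥ 2` and `x i = b i ^ (- t i)`. -/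
theorem result (k e e' : ℕ) (ρ n : Fin k → ℕ) (T : Fin k → Polynomial ℤ)
    (A : ∀ i, Fin (ρ i) → Fin (ρ i) → Polynomial ℤ) (h : ∀ i, Fin (ρ i) → PowerSeries ℚ)
    (hG : ∀ i, GFamily (T i) (A i) (h i)) (b : Fin k → ℕ) (hb : ∀ i, 2 ≤ b i) :
    -- number fields of degree at most `D`, relations of degree at most `d`
    (∀ D d m : ℕ, ∃ C : ℝ, 0 ≤ C ∧ ∀ P : ∀ i, Fin (n i) → Fin (n i) → MvPolynomial (Fin (ρ i)) ℂ,
      (∀ i a b, (P i a b).totalDegree ≤ e) → ∀ Λ : ∀ i, Matrix (Fin (n i)) (Fin (n i)) (Polynomial ℂ),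
      (∀ i a b, (Λ i a b).natDegree ≤ e') → ∀ ξ : Fin m → ℂ, ∀ N : ℕ, 2 ≤ N →
      (({t : Fin k → ℕ | (∀ i, 1 ≤ t i ∧ t i ≤ N) ∧
        ¬ Good D d ξ h P (fun i => (Λ i).map (Polynomial.eval ((t i : ℂ) * (Real.log (b i) : ℂ))))
          fun i => perMat (h i) (P i) ((b i : ℝ) ^ t i)}.ncard : ℕ) : ℝ) * N ≤
        C * (N : ℝ) ^ k * Real.log N) ∧
    -- all degrees and numbers at most `M N`, which tends to infinity
    (∃ (M : ℕ → ℕ) (ε : ℕ → ℝ), Tendsto M atTop atTop ∧ Tendsto ε atTop (nhds 0) ∧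
      ∀ P : ∀ i, Fin (n i) → Fin (n i) → MvPolynomial (Fin (ρ i)) ℂ,
      (∀ i a b, (P i a b).totalDegree ≤ e) → ∀ Λ : ∀ i, Matrix (Fin (n i)) (Fin (n i)) (Polynomial ℂ),
      (∀ i a b, (Λ i a b).natDegree ≤ e') → ∀ N : ℕ, 2 ≤ N → ∀ ξ : Fin (M N) → ℂ,
      (({t : Fin k → ℕ | (∀ i, 1 ≤ t i ∧ t i ≤ N) ∧
        ¬ Good (M N) (M N) ξ h P (fun i => (Λ i).map (Polynomial.eval ((t i : ℂ) * (Real.log (b i) : ℂ))))
          fun i => perMat (h i) (P i) ((b i : ℝ) ^ t i)}.ncard : ℕ) : ℝ) ≤ ε N * (N : ℝ) ^ k) := by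
  classical
  have hmain : ∀ D d m : ℕ, ∃ C : ℝ, 0 ≤ C ∧ ∀ P : ∀ i, Fin (n i) → Fin (n i) → MvPolynomial (Fin (ρ i)) ℂ,
      (∀ i a b, (P i a b).totalDegree ≤ e) → ∀ Λ : ∀ i, Matrix (Fin (n i)) (Fin (n i)) (Polynomial ℂ),
      (∀ i a b, (Λ i a b).natDegree ≤ e') → ∀ ξ : Fin m → ℂ, ∀ N : ℕ, 2 ≤ N →
      (({t : Fin k → ℕ | (∀ i, 1 ≤ t i ∧ t i ≤ N) ∧
        ¬ Good D d ξ h P (fun i => (Λ i).map (Polynomial.eval ((t i : ℂ) * (Real.log (b i) : ℂ))))
          fun i => perMat (h i) (P i) ((b i : ℝ) ^ t i)}.ncard : ℕ) : ℝ) * N ≤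
        C * (N : ℝ) ^ k * Real.log N := by
    intro D d m
    obtain ⟨C, hC, hmain⟩ := Pool.Agent.X120.GS.rel_degS k D d e e' m ρ n h hb fun i δ => fam (hG i) (hb i) δ
    refine ⟨C, hC, ?_⟩
    intro P hP Λ hΛ ξ N hN
    set E := {t : Fin k → ℕ | (∀ i, 1 ≤ t i ∧ t i ≤ N) ∧
        ¬ Good D d ξ h P (fun i => (Λ i).map (Polynomial.eval ((t i : ℂ) * (Real.log (b i) : ℂ))))
          fun i => perMat (h i) (P i) ((b i : ℝ) ^ t i)} with hE
    have hfin : E.Finite := by
      refine (Set.finite_Iic (fun _ : Fin k => N)).subset ?_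
      intro t ht i
      exact (ht.1 i).2
    rw [Set.ncard_eq_toFinset_card E hfin]
    refine hmain P hP Λ hΛ (Matrix.diagonal ξ) N hN hfin.toFinset fun t ht => ?_
    have ht' := hfin.mem_toFinset.1 ht
    refine ⟨ht'.1, fun hgood => ht'.2 ?_⟩
    have h3 := good_of hgood
    have h4 : (fun i => perMat (h i) (P i) ((Pool.Agent.X120.GS.tp b t i : ℕ) : ℝ)) =
        fun i => perMat (h i) (P i) ((b i : ℝ) ^ t i) := by
      funext i
      have h5 : ((Pool.Agent.X120.GS.tp b t i : ℕ) : ℝ) = (b i : ℝ) ^ t i := by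
        unfold Pool.Agent.X120.GS.tp
        push_cast
        rfl
      rw [h5]
    rw [h4] at h3
    exact h3
  refine ⟨hmain, ?_⟩
  choose C hC hcount using hmain
  obtain ⟨D, hD, hδ⟩ := Pool.Agent.Y123.GN.diag_seq (fun D N => C D D D * (Real.log N / N)) (by
      intro D
      have h1 : Tendsto (fun N : ℕ => Real.log N / N) atTop (nhds 0) :=
        (Real.isLittleO_log_id_atTop.tendsto_div_nhds_zero).comp tendsto_natCast_atTop_atTop
      have h5 := h1.const_mul (C D D D)
      rw [mul_zero] at h5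
      exact h5)
  refine ⟨D, _, hD, hδ, ?_⟩
  intro P hP Λ hΛ N hN ξ
  have h1 := hcount (D N) (D N) (D N) P hP Λ hΛ ξ N hN
  have hN0 : (0 : ℝ) < N := by
    have : 0 < N := by omega
    exact_mod_cast this
  rw [← le_div_iff₀ hN0] at h1
  refine h1.trans (le_of_eq ?_)
  ring

end Pool.Agent.Results.MP_12eca1_ag.DegenerateFibres
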