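import Pool.Agent.Results.MP_12eca1_ag.RelativeHyperelliptic
import Pool.Agent.X174.WinVecV

/-!
# Periods of ALL products of hyperelliptic curves with parameters in cubes around thin sequences, relative to constants

`f_1, …, f_N ∈ ℚ[X]` are monic of degree `n = 2g` with `n` distinct real roots, all different from `0`, and `C_j(t)` is
the curve `y² = f_j(x) (x - 1/t)` of genus `g`, `t` a positive integer. For all `D`, `d` there is `c > 0` such that for
every sequence `v ≥ 1` of exponent of convergence at most `τ` (for `v_i = i ^ a` this is `1 / a`, for `v_i = b ^ i` it is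
`0`), `ρ < 1` and every sequence `V_0, V_1, …` of `ℚ`-subspaces of `ℂ` of dimension `≤ D` there is ONE set `E ⊂ ℝ^N` of
Hausdorff dimension at most `(N - c + τ) / (1 - ρ)` such that for each `x` outside `E` and each `k`, for all but finitely
many `i` and ALL `N`-tuples of integers `t_j ≥ 1` in the cube `|t_j - x_j v_i| ≤ v_i ^ ρ`, every polynomial relation of
degree `≤ d` with coefficients in `V_k` between the periods of the curves `C_j(t_j)` holds on the whole torsor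
`{X_j Q_j X_jᵀ = 2πi J}` under the product of the symplectic groups.

The number of exceptions is from the starting result `RelativeHyperelliptic`.
-/

set_option autoImplicit false

open Polynomial

namespace Pool.Agent.Results.MP_12eca1_ag.FibresInCubes

open RelativeHyperelliptic (branch period polDR polB entries Fibre)

/-- the exponent of convergence of the sequence `v` is at most `τ` -/
def ExpLe (v : ℕ → ℝ) (τ : ℝ) : Prop := ∀ t : ℝ, τ < t → Summable (fun n : ℕ => (v n) ^ (-t))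

/-- the `1 / t_j` are in the gaps of `0`, the period matrices of the curves `y² = f_j(x) (x - 1/t_j)` are on the torsor
`Fibre`, and every polynomial of degree `≤ d` with coefficients in `V` which vanishes at the period matrices vanishes on
the torsor -/
def Generic {n N : ℕ} (a : Fin N → Fin n → ℝ) (f : Fin N → ℚ[X]) (m : Fin N → Fin (n + 1)) (d : ℕ)
    (V : Submodule ℚ ℂ) (t : Fin N → ℕ) : Prop :=
  (∀ j, StrictMono (branch (a j) (m j) (1 / (t j : ℝ)))) ∧
  (fun j => Matrix.of (period (branch (a j) (m j) (1 / (t j : ℝ))))) ∈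
    Fibre (n := n) (fun j => f j * (X - C (1 / (t j : ℚ)))) ∧
  ∀ P : MvPolynomial (Fin N × Fin n × Fin n) ℂ, P.totalDegree ≤ d → (∀ s, P.coeff s ∈ V) →
    MvPolynomial.eval (entries fun j => Matrix.of (period (branch (a j) (m j) (1 / (t j : ℝ))))) P = 0 →
    ∀ Y ∈ Fibre (n := n) (fun j => f j * (X - C (1 / (t j : ℚ)))), MvPolynomial.eval (entries Y) P = 0

/-- **Theorem.** Let `f_j ∈ ℚ[X]`, `j < N`, `N ≥ 1`, be monic of even degree `n` with distinct real roots `a_j`, all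
different from `0`; `m_j` is the place of `0` among the roots. For all `D`, `d` there is `0 < c < 1` such that for every
sequence `v ≥ 1` of exponent of convergence at most `τ ≥ 0`, every `ρ < 1` and every sequence `V_k` of `ℚ`-subspaces of `ℂ`
of dimension `≤ D` there is a set `E ⊂ ℝ^N` of Hausdorff dimension at most `(N - c + τ) / (1 - ρ)` such that for each `x`
outside `E` and each `k`, for all but finitely many `i`: ALL integers `t_j ≥ 1` with `|t_j - x_j v_i| ≤ v_i ^ ρ` for all `j`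
satisfy `Generic a f m d V_k t`. The sequences `v_i = (i + 1) ^ a` and `v_i = b ^ i` have exponent of convergence at most
`1 / a` and `0`. -/
theorem result :
    (∀ {n N : ℕ}, Even n → 1 ≤ N → ∀ (a : Fin N → Fin n → ℝ) (f : Fin N → ℚ[X]),
      (∀ j, (f j).map (algebraMap ℚ ℝ) = ∏ i, (X - C (a j i))) → ∀ m : Fin N → Fin (n + 1),
      (∀ j, StrictMono (branch (a j) (m j) 0)) → ∀ D d : ℕ,
      ∃ c : ℝ, 0 < c ∧ c < 1 ∧
      ∀ (v : ℕ → ℝ) (τ ρ : ℝ), (∀ i, 1 ≤ v i) → 0 ≤ τ → ExpLe v τ → ρ < 1 →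
      ∀ V : ℕ → Submodule ℚ ℂ, (∀ k, Module.Finite ℚ (V k) ∧ Module.finrank ℚ (V k) ≤ D) →
      ∃ E : Set (Fin N → ℝ), dimH E ≤ ENNReal.ofReal (((N : ℝ) - c + τ) / (1 - ρ)) ∧
        ∀ x : Fin N → ℝ, x ∉ E → ∀ k : ℕ, ∃ i₀ : ℕ, ∀ i : ℕ, i₀ ≤ i →
          ∀ t : Fin N → ℕ, (∀ j, 1 ≤ t j) → (∀ j, |(t j : ℝ) - x j * v i| ≤ (v i) ^ ρ) →
            Generic a f m d (V k) t) ∧
    (∀ a : ℝ, 0 < a → ExpLe (fun n : ℕ => ((n : ℝ) + 1) ^ a) (1 / a)) ∧
    (∀ b : ℝ, 1 < b → ExpLe (fun n : ℕ => b ^ n) 0) := by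
  refine ⟨fun {n N} hn hN a f hf m h0 D d => ?_, fun κ hκ => Pool.Agent.Y854.GM.expLe_pow κ hκ,
    fun b hb => Pool.Agent.Y854.GM.expLe_geom b hb⟩
  obtain ⟨c1, M, hc1, h⟩ := RelativeHyperelliptic.result hn a f hf m h0 D d
  set c : ℝ := min c1 (1 / 2) with hc
  have hc0 : 0 < c := lt_min hc1 (by norm_num)
  have hca : c ≤ c1 := min_le_left _ _
  have hcb : c ≤ 1 / 2 := min_le_right _ _
  have hN1 : (1 : ℝ) ≤ N := by exact_mod_cast hN
  refine ⟨c, hc0, by linarith, fun v τ ρ hv hτ hE hρ V hV => ?_⟩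
  have key : ∀ k : ℕ, ∃ E : Set (Fin N → ℝ), dimH E ≤ ENNReal.ofReal (((N : ℝ) - c + τ) / (1 - ρ)) ∧
      ∀ x : Fin N → ℝ, x ∉ E → ∃ i₀ : ℕ, ∀ i : ℕ, i₀ ≤ i → ∀ t : Fin N → ℕ,
        (∀ j, |(t j : ℝ) - x j * v i| ≤ (v i) ^ ρ) → ¬ ((∀ j, 1 ≤ t j) ∧ ¬ Generic a f m d (V k) t) := by
    intro k
    refine Pool.Agent.X174.winTup (fun t : Fin N → ℕ => (∀ j, 1 ≤ t j) ∧ ¬ Generic a f m d (V k) t) hv hτ hE
      (by linarith) hρ ⟨|M|, fun T hT => ?_⟩
    obtain ⟨S, hS1, hS2⟩ := h (V k) (hV k).1 (hV k).2 T hT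
    have hsub : {t : Fin N → ℕ | (∀ j, t j ≤ T) ∧ (∀ j, 1 ≤ t j) ∧ ¬ Generic a f m d (V k) t} ⊆
        (S : Set (Fin N → ℕ)) := by
      rintro t ⟨h1, h2, h3⟩
      by_contra hcon
      exact h3 (hS2 t (fun j => ⟨h2 j, h1 j⟩) (by simpa using hcon))
    have hT1 : (1 : ℝ) ≤ T := by exact_mod_cast hT
    calc ({t : Fin N → ℕ | (∀ j, t j ≤ T) ∧ (∀ j, 1 ≤ t j) ∧ ¬ Generic a f m d (V k) t}.ncard : ℝ)
        ≤ (S.card : ℝ) := by
          rw [← Set.ncard_coe_finset]
          exact_mod_cast Set.ncard_le_ncard hsub S.finite_toSet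
      _ ≤ M * (T : ℝ) ^ ((N : ℝ) - c1) := hS1
      _ ≤ |M| * (T : ℝ) ^ ((N : ℝ) - c1) := mul_le_mul_of_nonneg_right (le_abs_self M) (by positivity)
      _ ≤ |M| * (T : ℝ) ^ ((N : ℝ) - c) := mul_le_mul_of_nonneg_left
          (Real.rpow_le_rpow_of_exponent_le hT1 (by linarith)) (abs_nonneg M)
  choose Es hEs1 hEs2 using key
  refine ⟨⋃ k, Es k, ?_, fun x hx k => ?_⟩
  · rw [dimH_iUnion]
    exact iSup_le hEs1
  · obtain ⟨i₀, hi⟩ := hEs2 k x (fun hm => hx (Set.mem_iUnion.2 ⟨_, hm⟩))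
    refine ⟨i₀, fun i hi1 t ht hcube => ?_⟩
    by_contra hcon
    exact hi i hi1 t hcube ⟨ht, hcon⟩

end Pool.Agent.Results.MP_12eca1_ag.FibresInCubes
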